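import Pool.Agent.H71.CQ.Basic

/-!
# Row RLB: relabelling against countably many reals
-/

set_option autoImplicit false

open Set

namespace Pool.Agent.H21.CQ

open Pool.Agent.H71.CQ

/-- a sequence which meets countably many requirements -/
theorem rlb_seq {C : Type} (P : C → Prop) (R' : C → C → Prop) (R : ℕ → C → Prop) (a0 : C)
    (h0 : P a0) (h : ∀ n a, P a → ∃ b, P b ∧ R' a b ∧ R n b) :
    ∃ s : ℕ → C, (∀ n, P (s n)) ∧ (∀ n, R' (s n) (s (n + 1))) ∧ ∀ n, R n (s (n + 1)) := by
  choose! f hf using h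
  let s : ℕ → C := fun n => Nat.rec a0 (fun k c => f k c) n
  have hs : ∀ n, s (n + 1) = f n (s n) := fun n => rfl
  have hP : ∀ n, P (s n) := by
    intro n
    induction n with
    | zero => exact h0
    | succ n ih =>
      rw [hs]
      exact (hf n _ ih).1
  refine ⟨s, hP, fun n => ?_, fun n => ?_⟩
  · rw [hs]
    exact (hf n _ (hP n)).2.1
  · rw [hs]
    exact (hf n _ (hP n)).2.2

theorem cell_symm {L : Type} {e : ℕ → ℕ → L} {p q : L} {x y : ℕ} (h : Cell e p q x y) :
    Cell e p q y x := by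
  obtain ⟨h1, h2⟩ := h
  refine ⟨h1.symm, ?_⟩
  rcases h2 with ⟨h3, h4⟩ | ⟨h3, h4⟩
  · exact Or.inr ⟨h4, h3⟩
  · exact Or.inl ⟨h4, h3⟩

/-- the requirements -/
def Req {L : Type} (N : NF L) (e : ℕ → ℕ → L) (p q : L) (lam : ℕ → L) (x x' : ℕ)
    (r : ℕ → Set (ℕ × ℕ)) :
    ((ℕ × ℕ) ⊕ (ℕ × ℕ)) ⊕ ((ℕ × ℕ × ℕ) ⊕ ℕ) → (ℕ → ℕ → Option L) → Prop
  | .inl (.inl z), b => Cell e p q z.1 z.2 → ∃ l, b z.1 z.2 = some l
  | .inl (.inr z), b => Cell e p q z.1 z.2 → ¬ Op N (e z.1 z.2) →
      {w | b z.1 w = some (e z.1 z.2)}.encard = {w | e z.1 w = e z.1 z.2}.encard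
  | .inr (.inl z), b => {y | Cell e p q z.1 y ∧ e z.1 y ∈ N.B z.2.1}.Infinite →
      ∃ y l, z.2.2 ≤ y ∧ b z.1 y = some l ∧ l ∈ N.B z.2.1
  | .inr (.inr k), b => ∀ e' : ℕ → ℕ → L, (∀ z w l, b z w = some l → e' z w = l) →
      (∀ l, ¬ Op N l → {z | e' x z = l}.encard = {z | e x z = l}.encard) →
      {ij : ℕ × ℕ | ∃ y, e' x y = lam ij.1 ∧ e' x' y = lam ij.2} ≠ r k

theorem le_refl' {L : Type} (a : ℕ → ℕ → Option L) : Le a a := fun _ _ _ h => h

theorem rlb_dense (hRBC : T_RBC) (hRBR : T_RBR) (hRBN : T_RBN) (hRBD : T_RBD)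
    {L : Type} {N : NF L} (hN : N.Sep) {e : ℕ → ℕ → L} (he : Mem N e) {p q : L}
    (hp : (Srt e p).Infinite) (hq : (Srt e q).Infinite) {lam : ℕ → L} (hlam : Lam N e p q lam)
    {x x' : ℕ} (hxx : x ≠ x') (hx : e x x = p) (hx' : e x' x' = p) (r : ℕ → Set (ℕ × ℕ))
    (i : ((ℕ × ℕ) ⊕ (ℕ × ℕ)) ⊕ ((ℕ × ℕ × ℕ) ⊕ ℕ)) (a : ℕ → ℕ → Option L)
    (ha : Cnd N e p q a) :
    ∃ b, Cnd N e p q b ∧ Le a b ∧ Req N e p q lam x x' r i b := by
  rcases i with (z | z) | (z | k)
  · by_cases hc : Cell e p q z.1 z.2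
    · obtain ⟨b, l, h1, h2, h3⟩ := hRBC L N hN e he p q lam hlam a ha z.1 z.2 hc
      exact ⟨b, h1, h2, fun _ => ⟨l, h3⟩⟩
    · exact ⟨a, ha, le_refl' a, fun h => absurd h hc⟩
  · by_cases hc : Cell e p q z.1 z.2
    · by_cases ho : Op N (e z.1 z.2)
      · exact ⟨a, ha, le_refl' a, fun _ h => absurd ho h⟩
      · obtain ⟨b, h1, h2, h3⟩ := hRBR L N hN e he p q hp hq a ha z.1 z.2 hc ho
        exact ⟨b, h1, h2, fun _ _ => h3⟩
    · exact ⟨a, ha, le_refl' a, fun h => absurd h hc⟩
  · by_cases hc : {y | Cell e p q z.1 y ∧ e z.1 y ∈ N.B z.2.1}.Infinite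
    · obtain ⟨b, y, l, h1, h2, h3, h4, h5⟩ := hRBN L N hN e he p q hp hq a ha z.1 z.2.1 hc z.2.2
      exact ⟨b, h1, h2, fun _ => ⟨y, l, h3, h4, h5⟩⟩
    · exact ⟨a, ha, le_refl' a, fun h => absurd h hc⟩
  · obtain ⟨b, h1, h2, h3⟩ := hRBD L N hN e he p q hp hq lam hlam x x' hxx hx hx' a ha (r k)
    exact ⟨b, h1, h2, h3⟩

theorem pf_RLB (hDEG : T_DEG) (hGLU : T_GLU) (hRBC : T_RBC) (hRBR : T_RBR) (hRBN : T_RBN)
    (hRBD : T_RBD) : T_RLB := by
  intro L N hN e he p q hp hq lam hlam x x' hxx hx hx' r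
  -- the enumeration of the requirements
  obtain ⟨c, hc⟩ := exists_surjective_nat (((ℕ × ℕ) ⊕ (ℕ × ℕ)) ⊕ ((ℕ × ℕ × ℕ) ⊕ ℕ))
  have h0 : Cnd N e p q (fun _ _ => none) := by
    refine ⟨?_, fun _ _ _ h => ?_, fun _ _ _ h => ?_, fun _ _ _ h => ?_, fun x l _ => ?_⟩
    · simp
    · cases h
    · cases h
    · cases h
    · simp
  obtain ⟨s, hs1, hs2, hs3⟩ := rlb_seq (Cnd N e p q) Le
    (fun n b => Req N e p q lam x x' r (c n) b) _ h0
    (fun n a ha => rlb_dense hRBC hRBR hRBN hRBD hN he hp hq hlam hxx hx hx' r (c n) a ha)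
  have hreq : ∀ i, ∃ n, Req N e p q lam x x' r i (s n) := by
    intro i
    obtain ⟨n, rfl⟩ := hc i
    exact ⟨n + 1, hs3 n⟩
  have hmono : ∀ m n, m ≤ n → Le (s m) (s n) := by
    intro m n hmn
    induction hmn with
    | refl => exact le_refl' _
    | step _ ih => exact fun z w l h => hs2 _ z w l (ih z w l h)
  have huniq : ∀ m n z w l l', s m z w = some l → s n z w = some l' → l = l' := by
    intro m n z w l l' h h'
    have h1 := hmono m (max m n) (le_max_left _ _) z w l h
    have h2 := hmono n (max m n) (le_max_right _ _) z w l' h'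
    rw [h1] at h2
    exact Option.some.inj h2
  -- the structure
  have hex : ∀ z w, ∃ l, (∀ k l', s k z w = some l' → l = l') ∧
      (¬ Cell e p q z w → l = e z w) ∧ (Cell e p q z w → ∃ k, s k z w = some l) := by
    intro z w
    by_cases hcl : Cell e p q z w
    · obtain ⟨n, hn⟩ := hreq (Sum.inl (Sum.inl (z, w)))
      obtain ⟨l, hl⟩ := hn hcl
      exact ⟨l, fun k l' h => huniq n k z w l l' hl h, fun h => absurd hcl h, fun _ => ⟨n, hl⟩⟩
    · exact ⟨e z w, fun k l' h => absurd ((hs1 k).cell z w l' h) hcl, fun _ => rfl,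
        fun h => absurd h hcl⟩
  choose e' hE1 hE2 hE3 using hex
  have hE1' : ∀ k z w l, s k z w = some l → e' z w = l := fun k z w l h => hE1 z w k l h
  have hdiag : ∀ z, e' z z = e z z := fun z => hE2 z z fun h => h.1 rfl
  have hPsb : ∀ z w, Cell e p q z w → Psb e z w (e' z w) := by
    intro z w h
    obtain ⟨k, hk⟩ := hE3 z w h
    exact (hs1 k).psb z w _ hk
  have hCoh : Coh N e' := by
    refine ⟨fun z w => ?_, fun z w => ?_, fun z w => ?_, fun z w => ?_⟩
    · by_cases hcl : Cell e p q z w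
      · obtain ⟨k, hk⟩ := hE3 z w hcl
        exact hE1' k w z _ ((hs1 k).rev z w _ hk)
      · rw [hE2 z w hcl, hE2 w z fun h => hcl (cell_symm h)]
        exact he.rev z w
    · rw [hdiag]
      by_cases hcl : Cell e p q z w
      · obtain ⟨x1, y1, _, h2, _, h4⟩ := hPsb z w hcl
        rw [← h4, ← he.src, h2]
      · rw [hE2 z w hcl]
        exact he.src z w
    · by_cases hcl : Cell e p q z w
      · obtain ⟨x1, y1, h1, _, _, h4⟩ := hPsb z w hcl
        rw [← h4, he.dia]
        exact ⟨fun h => absurd h h1, fun h => absurd h hcl.1⟩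
      · rw [hE2 z w hcl]
        exact he.dia z w
    · by_cases hcl : Cell e p q z w
      · obtain ⟨x1, y1, _, _, _, h4⟩ := hPsb z w hcl
        rw [← h4]
        exact he.U _ _
      · rw [hE2 z w hcl]
        exact he.U z w
  -- the numbers of neighbours for closed labels
  have hcnt : ∀ z l, ¬ Op N l → {y | e' z y = l}.encard = {y | e z y = l}.encard := by
    intro z l hl
    by_cases hps : ∃ y, Cell e p q z y ∧ Psb e z y l
    · obtain ⟨y, hcl, x1, y1, h1, h2, h3, h4⟩ := hps
      have hrow : ∀ w, e z w = l → Cell e p q z w := by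
        intro w hw
        have hne : z ≠ w := by
          intro h
          have h5 : e z w ∈ N.dia := (he.dia z w).2 h
          rw [hw, ← h4, he.dia] at h5
          exact h1 h5
        have hcol : e w w = e y y := by
          rw [he.toCoh.tgt z w, hw, ← h4, ← he.toCoh.tgt x1 y1, h3]
        refine ⟨hne, ?_⟩
        rw [hcol]
        exact hcl.2
      have hrow' : ∀ w, e' z w = l → Cell e p q z w := by
        intro w hw
        by_contra hncl
        exact hncl (hrow w ((hE2 z w hncl).symm.trans hw))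
      apply le_antisymm
      · by_contra hlt
        rw [not_le] at hlt
        have hfin : {y | e z y = l}.encard ≠ ⊤ := ne_top_of_lt hlt
        have h5 : {y | e z y = l}.encard + 1 ≤ {y | e' z y = l}.encard :=
          Order.add_one_le_of_lt hlt
        obtain ⟨t, ht1, ht2⟩ := Set.exists_subset_encard_eq h5
        have htf : t.Finite := by
          rw [← Set.encard_ne_top_iff, ht2]
          intro h6
          apply hfin
          simpa using h6
        have h7 : ∀ w, ∃ k, w ∈ t → s k z w = some l := by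
          intro w
          by_cases hw : w ∈ t
          · obtain ⟨k, hk⟩ := hE3 z w (hrow' w (ht1 hw))
            refine ⟨k, fun _ => ?_⟩
            rw [hk, ht1 hw]
          · exact ⟨0, fun h => absurd h hw⟩
        choose κ hκ using h7
        obtain ⟨K, hK⟩ := (htf.image κ).bddAbove
        have h8 : t ⊆ {w | s K z w = some l} := by
          intro w hw
          exact hmono (κ w) K (hK ⟨w, hw, rfl⟩) z w l (hκ w hw)
        have h9 := (Set.encard_le_encard h8).trans ((hs1 K).cap z l hl)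
        rw [ht2] at h9
        exact absurd h9 (not_le.2 ((ENat.lt_add_one_iff hfin).2 le_rfl))
      · by_cases hy : ∃ w, e z w = l
        · obtain ⟨w, rfl⟩ := hy
          obtain ⟨n, hn⟩ := hreq (Sum.inl (Sum.inr (z, w)))
          rw [← hn (hrow w rfl) hl]
          exact Set.encard_le_encard fun v hv => hE1' n z v _ hv
        · have : {y | e z y = l} = ∅ := by
            ext w
            simp only [mem_ofPred_eq, mem_empty_iff_false, iff_false]
            exact fun h => hy ⟨w, h⟩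
          rw [this, Set.encard_empty]
          exact zero_le
    · have : {y | e' z y = l} = {y | e z y = l} := by
        ext w
        constructor
        · intro hw
          by_cases hcl : Cell e p q z w
          · exfalso
            apply hps
            refine ⟨w, hcl, ?_⟩
            have h1 := hPsb z w hcl
            rwa [show e' z w = l from hw] at h1
          · rw [mem_ofPred_eq] at hw ⊢
            rw [← hE2 z w hcl]
            exact hw
        · intro hw
          by_cases hcl : Cell e p q z w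
          · exact absurd ⟨w, hcl, z, w, hcl.1, rfl, rfl, hw⟩ hps
          · rw [mem_ofPred_eq] at hw ⊢
            rw [hE2 z w hcl]
            exact hw
      rw [this]
  refine ⟨e', ?_, fun k => ?_⟩
  · apply hGLU L N hN ℕ e' hCoh
    intro z
    refine ⟨ℕ, e, z, he, (hdiag z).symm, hcnt z, fun n hn => ?_⟩
    rw [hdiag, ← he.cnt n z] at hn
    have hinf : {y | e z y ∈ N.B n}.Infinite := Set.encard_eq_top_iff.1 hn
    by_cases hi : {y | Cell e p q z y ∧ e z y ∈ N.B n}.Infinite
    · apply Set.infinite_of_not_bddAbove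
      rintro ⟨m, hm⟩
      obtain ⟨k, hk⟩ := hreq (Sum.inr (Sum.inl (z, n, m + 1)))
      obtain ⟨y, l, h1, h2, h3⟩ := hk hi
      have h4 : e' z y ∈ N.B n := by
        rw [hE1' k z y l h2]
        exact h3
      have h5 := hm h4
      have h6 : m + 1 ≤ y := h1
      omega
    · rw [Set.not_infinite] at hi
      refine (hinf.sdiff hi).mono ?_
      rintro y ⟨h1, h2⟩
      have hncl : ¬ Cell e p q z y := fun h => h2 ⟨h, h1⟩
      rw [mem_ofPred_eq, hE2 z y hncl]
      exact h1
  · obtain ⟨n, hn⟩ := hreq (Sum.inr (Sum.inr k))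
    exact hn e' (fun z w l h => hE1' n z w l h) (hcnt x)

end Pool.Agent.H21.CQ
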